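import Mathlib

/-!
# A dense irregular manifold without dense uniform Li-Yorke chaos
-/

namespace Pool.Agent.Results.MP_515085_an.UltrafilterShift

open Filter Topology

section Defs

variable {𝕜 X : Type} [RCLike 𝕜] [NormedAddCommGroup X] [NormedSpace 𝕜 X]

/-- `x` is irregular for `T`: `liminf ‖T^n x‖ = 0` and `limsup ‖T^n x‖ = ∞`. -/
def Irregular (T : X →L[𝕜] X) (x : X) : Prop :=
  (∀ ε : ℝ, 0 < ε → ∃ᶠ n in atTop, ‖(T ^ n) x‖ < ε) ∧
    ∀ M : ℝ, ∃ᶠ n in atTop, M < ‖(T ^ n) x‖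

/-- Some dense linear subspace consists, apart from zero, of irregular vectors. -/
def DenseIrregularManifold (T : X →L[𝕜] X) : Prop :=
  ∃ Y : Submodule 𝕜 X, Dense (Y : Set X) ∧ ∀ y ∈ Y, y ≠ 0 → Irregular T y

/-- `S` has at least two points and is uniformly Li-Yorke scrambled for `T`. -/
def UniformlyScrambled (T : X →L[𝕜] X) (S : Set X) : Prop :=
  S.Nontrivial ∧ ∃ p q : ℕ → ℕ, (∀ n, 0 < p n) ∧ (∀ n, 0 < q n) ∧
    ∀ x ∈ S, ∀ y ∈ S, x ≠ y →
      Tendsto (fun n => ‖(T ^ p n) x - (T ^ p n) y‖) atTop (𝓝 0) ∧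
        Tendsto (fun n => ‖(T ^ q n) x - (T ^ q n) y‖) atTop atTop

/-- Some dense uncountable set is uniformly Li-Yorke scrambled. -/
def DenselyUniformlyChaotic (T : X →L[𝕜] X) : Prop :=
  ∃ S : Set X, Dense S ∧ ¬ S.Countable ∧ UniformlyScrambled T S

end Defs

/-! ### The weights -/

/-- The peaks. -/
def up (k : ℕ) : ℕ :=
  Nat.log 4 k - ((k - 2 * 4 ^ Nat.log 4 k) + (2 * 4 ^ Nat.log 4 k - k))

open Classical in
/-- The dips. -/
noncomputable def dn (A : Set ℕ) (k : ℕ) : ℕ :=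
  if Nat.log 4 k ∈ A then
    Nat.log 4 k - ((k - 3 * 4 ^ Nat.log 4 k) + (3 * 4 ^ Nat.log 4 k - k)) else 0

theorem lt_four_pow (j : ℕ) : 2 * j < 4 ^ j + 1 := by
  induction j with
  | zero => norm_num
  | succ j ih =>
    have : 0 < 4 ^ j := by positivity
    rw [pow_succ]; omega

theorem log_eq {j k : ℕ} (h1 : 4 ^ j ≤ k) (h2 : k < 4 ^ (j + 1)) : Nat.log 4 k = j :=
  Nat.log_eq_of_pow_le_of_lt_pow h1 h2

theorem log_cases (k : ℕ) : k = 0 ∨ (4 ^ Nat.log 4 k ≤ k ∧ k < 4 * 4 ^ Nat.log 4 k) := by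
  rcases Nat.eq_zero_or_pos k with h | h
  · exact Or.inl h
  · right
    refine ⟨Nat.pow_log_le_self 4 h.ne', ?_⟩
    have := Nat.lt_pow_succ_log_self (b := 4) (by norm_num) k
    rw [pow_succ] at this
    omega

/-- One step either stays in a block or enters a new one. -/
theorem log_step (k : ℕ) : Nat.log 4 (k + 1) = Nat.log 4 k ∨
    (k + 1 = 4 * 4 ^ Nat.log 4 k ∧ Nat.log 4 (k + 1) = Nat.log 4 k + 1) := by
  set j := Nat.log 4 k with hj
  have hpos : 0 < 4 ^ j := by positivity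
  rcases log_cases k with h | h
  · subst h
    left
    simp [hj]
  · rw [← hj] at h
    by_cases h2 : k + 1 < 4 * 4 ^ j
    · left
      apply log_eq
      · omega
      · rw [pow_succ]; omega
    · right
      have h3 : k + 1 = 4 * 4 ^ j := by omega
      refine ⟨h3, ?_⟩
      apply log_eq
      · rw [pow_succ]; omega
      · rw [pow_succ, pow_succ]; omega

theorem up_step (k : ℕ) : up (k + 1) ≤ up k + 1 ∧ up k ≤ up (k + 1) + 1 := by
  unfold up
  have h0 := lt_four_pow (Nat.log 4 k)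
  rcases log_step k with h | ⟨h1, h2⟩
  · rw [h]; omega
  · rw [h2, pow_succ]
    omega

theorem dn_step (A : Set ℕ) (k : ℕ) : dn A (k + 1) ≤ dn A k + 1 ∧ dn A k ≤ dn A (k + 1) + 1 := by
  unfold dn
  have h0 := lt_four_pow (Nat.log 4 k)
  rcases log_step k with h | ⟨h1, h2⟩
  · rw [h]
    split_ifs <;> omega
  · rw [h2, pow_succ]
    split_ifs <;> omega

/-- The products of the weights. -/
noncomputable def W (A : Set ℕ) (k : ℕ) : ℝ := 2 ^ up k / 2 ^ dn A k

theorem W_pos (A : Set ℕ) (k : ℕ) : 0 < W A k := by unfold W; positivity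

theorem W_step (A : Set ℕ) (k : ℕ) : W A (k + 1) ≤ 4 * W A k := by
  unfold W
  rw [div_le_iff₀ (by positivity), mul_assoc, div_mul_eq_mul_div, mul_div_assoc',
    le_div_iff₀ (by positivity)]
  have h1 : (2 : ℝ) ^ up (k + 1) ≤ 2 * 2 ^ up k := by
    rw [← pow_succ']
    exact pow_le_pow_right₀ (by norm_num) (up_step k).1
  have h2 : (2 : ℝ) ^ dn A k ≤ 2 * 2 ^ dn A (k + 1) := by
    rw [← pow_succ']
    exact pow_le_pow_right₀ (by norm_num) (dn_step A k).2
  calc (2 : ℝ) ^ up (k + 1) * 2 ^ dn A k ≤ (2 * 2 ^ up k) * (2 * 2 ^ dn A (k + 1)) :=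
        mul_le_mul h1 h2 (by positivity) (by positivity)
    _ = 4 * (2 ^ up k * 2 ^ dn A (k + 1)) := by ring

theorem dn_le (A : Set ℕ) (k : ℕ) : dn A k ≤ Nat.log 4 k := by
  unfold dn
  split_ifs <;> omega

theorem W_ge_one {A : Set ℕ} {k : ℕ} (h : Nat.log 4 k ∉ A) : 1 ≤ W A k := by
  unfold W dn
  rw [if_neg h, pow_zero, div_one]
  exact one_le_pow₀ (by norm_num)

theorem W_ge (A : Set ℕ) (k : ℕ) : 1 / 2 ^ Nat.log 4 k ≤ W A k := by
  unfold W
  apply div_le_div₀ (by positivity) (one_le_pow₀ (by norm_num)) (by positivity)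
  exact pow_le_pow_right₀ (by norm_num) (dn_le A k)

theorem W_dip {A : Set ℕ} {j m : ℕ} (hj : j ∈ A) (hm : m ≤ j) :
    W A (m + 3 * 4 ^ j) = 1 / 2 ^ (j - m) := by
  have h0 := lt_four_pow j
  have hpos : 0 < 4 ^ j := by positivity
  have hlog : Nat.log 4 (m + 3 * 4 ^ j) = j := by
    apply log_eq
    · omega
    · rw [pow_succ]; omega
  unfold W up dn
  rw [hlog, if_pos hj]
  have e1 : j - (m + 3 * 4 ^ j - 2 * 4 ^ j + (2 * 4 ^ j - (m + 3 * 4 ^ j))) = 0 := by omega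
  have e2 : j - (m + 3 * 4 ^ j - 3 * 4 ^ j + (3 * 4 ^ j - (m + 3 * 4 ^ j))) = j - m := by omega
  rw [e1, e2, pow_zero]

theorem W_peak (A : Set ℕ) {j m : ℕ} (hm : m ≤ j) : W A (m + 2 * 4 ^ j) = 2 ^ (j - m) := by
  have h0 := lt_four_pow j
  have hpos : 0 < 4 ^ j := by positivity
  have hlog : Nat.log 4 (m + 2 * 4 ^ j) = j := by
    apply log_eq
    · omega
    · rw [pow_succ]; omega
  unfold W up dn
  rw [hlog]
  have e1 : j - (m + 2 * 4 ^ j - 2 * 4 ^ j + (2 * 4 ^ j - (m + 2 * 4 ^ j))) = j - m := by omega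
  have e2 : j - (m + 2 * 4 ^ j - 3 * 4 ^ j + (3 * 4 ^ j - (m + 2 * 4 ^ j))) = 0 := by omega
  rw [e1, e2]
  simp

/-! ### The space and the operator -/

/-- The index set of the fibres. -/
abbrev Γ := {A : Set ℕ // A ∈ (Filter.hyperfilter ℕ : Ultrafilter ℕ)}

variable (𝕜 : Type) [RCLike 𝕜]

/-- The space. -/
abbrev X := lp (fun _ : Γ × ℕ => 𝕜) 1

/-- The coefficients of the image. -/
noncomputable def sh (x : Γ × ℕ → 𝕜) : Γ × ℕ → 𝕜
  | (_, 0) => 0
  | (A, k + 1) => ((W A.1 (k + 1) / W A.1 k : ℝ) : 𝕜) * x (A, k)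

/-- The injection. -/
def σ (i : Γ × ℕ) : Γ × ℕ := (i.1, i.2 + 1)

theorem σ_inj : Function.Injective σ := by
  rintro ⟨a, k⟩ ⟨b, l⟩ h
  simp only [σ, Prod.mk.injEq] at h
  exact Prod.ext h.1 (by simpa using h.2)

variable {𝕜}

theorem sh_σ (x : Γ × ℕ → 𝕜) (i : Γ × ℕ) :
    sh 𝕜 x (σ i) = ((W i.1.1 (i.2 + 1) / W i.1.1 i.2 : ℝ) : 𝕜) * x i := rfl

theorem sh_support (x : Γ × ℕ → 𝕜) : Function.support (fun i => ‖sh 𝕜 x i‖) ⊆ Set.range σ := by
  rintro ⟨a, k⟩ h
  cases k with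
  | zero => exact absurd (by simp [sh]) h
  | succ k => exact ⟨(a, k), rfl⟩

theorem norm_sh_σ (x : Γ × ℕ → 𝕜) (i : Γ × ℕ) : ‖sh 𝕜 x (σ i)‖ ≤ 4 * ‖x i‖ := by
  rw [sh_σ, norm_mul, RCLike.norm_ofReal]
  apply mul_le_mul_of_nonneg_right _ (norm_nonneg _)
  have h1 := W_pos i.1.1 i.2
  have h2 := W_pos i.1.1 (i.2 + 1)
  rw [abs_of_pos (by positivity), div_le_iff₀ h1]
  exact W_step _ _

theorem summable_norm (x : X 𝕜) : Summable fun i => ‖x i‖ := by
  have := (lp.memℓp x).summable (by simp)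
  simpa using this

theorem norm_eq (x : X 𝕜) : ‖x‖ = ∑' i, ‖x i‖ := by
  have := lp.norm_eq_tsum_rpow (p := 1) (by simp) x
  simpa using this

theorem summable_sh (x : X 𝕜) : Summable fun i => ‖sh 𝕜 x i‖ := by
  rw [← σ_inj.summable_iff (f := fun i => ‖sh 𝕜 x i‖)]
  · apply Summable.of_nonneg_of_le (fun i => norm_nonneg _) (fun i => norm_sh_σ (x : Γ × ℕ → 𝕜) i)
    exact (summable_norm x).mul_left 4
  · intro i hi
    by_contra h
    exact hi (sh_support _ h)

theorem memℓp_sh (x : X 𝕜) : Memℓp (sh 𝕜 x) 1 := by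
  apply memℓp_gen
  simpa using summable_sh x

variable (𝕜)

/-- The shift as a linear map. -/
noncomputable def shL : X 𝕜 →ₗ[𝕜] X 𝕜 where
  toFun x := ⟨sh 𝕜 x, memℓp_sh x⟩
  map_add' x y := by
    ext ⟨a, k⟩
    cases k with
    | zero => simp [sh]
    | succ k => simp [sh, mul_add]
  map_smul' c x := by
    ext ⟨a, k⟩
    cases k with
    | zero => simp [sh]
    | succ k =>
      simp only [sh, lp.coeFn_smul, Pi.smul_apply, smul_eq_mul, RingHom.id_apply]
      ring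

/-- The operator. -/
noncomputable def T : X 𝕜 →L[𝕜] X 𝕜 := (shL 𝕜).mkContinuous 4 (by
  intro x
  rw [norm_eq, norm_eq, ← tsum_mul_left]
  have h1 : ∑' i, ‖(shL 𝕜 x) i‖ = ∑' i, ‖sh 𝕜 x (σ i)‖ :=
    (σ_inj.tsum_eq (f := fun i => ‖sh 𝕜 x i‖) (sh_support _)).symm
  rw [h1]
  apply Summable.tsum_le_tsum (fun i => norm_sh_σ _ i)
  · exact (σ_inj.summable_iff (f := fun i => ‖sh 𝕜 x i‖) (by
      intro i hi
      by_contra h
      exact hi (sh_support _ h))).2 (summable_sh x)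
  · exact (summable_norm x).mul_left 4)

variable {𝕜}

theorem T_apply (x : X 𝕜) (i : Γ × ℕ) : (T 𝕜 x) i = sh 𝕜 x i := rfl

theorem T_pow_apply (n : ℕ) (x : X 𝕜) (A : Γ) (m : ℕ) :
    ((T 𝕜 ^ n) x) (A, m + n) = ((W A.1 (m + n) / W A.1 m : ℝ) : 𝕜) * x (A, m) := by
  induction n with
  | zero =>
    rw [pow_zero, add_zero, div_self (W_pos _ _).ne']
    simp
  | succ n ih =>
    rw [pow_succ', mul_apply_eq_comp, T_apply]
    show ((W A.1 (m + n + 1) / W A.1 (m + n) : ℝ) : 𝕜) * ((T 𝕜 ^ n) x) (A, m + n) = _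
    rw [ih, ← mul_assoc]
    congr 1
    rw [← RCLike.ofReal_mul]
    congr 1
    have h1 := (W_pos A.1 (m + n)).ne'
    have h2 := (W_pos A.1 m).ne'
    rw [← add_assoc]
    field_simp

/-! ### The irregular manifold -/

/-- The finitely supported vectors. -/
def Y : Submodule 𝕜 (X 𝕜) where
  carrier := {x | (Function.support (x : Γ × ℕ → 𝕜)).Finite}
  add_mem' {x y} hx hy := by
    apply Set.Finite.subset (hx.union hy)
    intro i hi
    rw [Function.mem_support, lp.coeFn_add, Pi.add_apply] at hi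
    by_contra h
    rw [Set.mem_union, not_or, Function.mem_support, Function.mem_support, not_not,
      not_not] at h
    exact hi (by rw [h.1, h.2, add_zero])
  zero_mem' := by
    show (Function.support ((0 : X 𝕜) : Γ × ℕ → 𝕜)).Finite
    rw [lp.coeFn_zero, Function.support_zero]
    exact Set.finite_empty
  smul_mem' c x hx := by
    apply Set.Finite.subset hx
    intro i hi
    rw [Function.mem_support, lp.coeFn_smul, Pi.smul_apply] at hi
    rw [Function.mem_support]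
    intro h
    exact hi (by rw [h, smul_zero])

theorem Y_dense : Dense ((Y : Submodule 𝕜 (X 𝕜)) : Set (X 𝕜)) := by
  classical
  intro x
  have h := lp.hasSum_single (p := 1) (by simp) x
  apply mem_closure_of_tendsto h
  filter_upwards with s
  show (Function.support ((∑ i ∈ s, lp.single 1 i (x i) : X 𝕜) : Γ × ℕ → 𝕜)).Finite
  apply Set.Finite.subset s.finite_toSet
  intro i hi
  rw [Function.mem_support, lp.coeFn_sum, Finset.sum_apply] at hi
  by_contra hn
  apply hi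
  apply Finset.sum_eq_zero
  intro j hj
  have hij : i ≠ j := fun h => hn (by rw [h]; exact hj)
  rw [lp.single_apply_ne _ _ _ hij]

theorem T_pow_zero (n : ℕ) (x : X 𝕜) (A : Γ) (k : ℕ) (hk : k < n) :
    ((T 𝕜 ^ n) x) (A, k) = 0 := by
  induction n generalizing k with
  | zero => omega
  | succ n ih =>
    rw [pow_succ', mul_apply_eq_comp, T_apply]
    cases k with
    | zero => rfl
    | succ k =>
      show ((W A.1 (k + 1) / W A.1 k : ℝ) : 𝕜) * ((T 𝕜 ^ n) x) (A, k) = _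
      rw [ih k (by omega), mul_zero]

/-- The norm of the iterates. -/
theorem norm_T_pow (n : ℕ) (x : X 𝕜) :
    ‖(T 𝕜 ^ n) x‖ = ∑' i : Γ × ℕ, (W i.1.1 (i.2 + n) / W i.1.1 i.2) * ‖x i‖ := by
  rw [norm_eq]
  have hinj : Function.Injective (fun i : Γ × ℕ => (i.1, i.2 + n)) := by
    rintro ⟨a, k⟩ ⟨b, l⟩ h
    simp only [Prod.mk.injEq] at h
    exact Prod.ext h.1 (by simpa using h.2)
  rw [← hinj.tsum_eq]
  · apply tsum_congr
    intro i
    rw [T_pow_apply, norm_mul, RCLike.norm_ofReal, abs_of_pos]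
    exact div_pos (W_pos _ _) (W_pos _ _)
  · rintro ⟨a, k⟩ h
    rw [Function.mem_support] at h
    by_cases hk : k < n
    · exact absurd (by rw [T_pow_zero n x a k hk, norm_zero]) h
    · exact ⟨(a, k - n), by simp only [Prod.mk.injEq, true_and]; omega⟩

theorem Y_irregular (x : X 𝕜) (hx : x ∈ (Y : Submodule 𝕜 (X 𝕜))) (h0 : x ≠ 0) :
    Irregular (T 𝕜) x := by
  classical
  have hfin : (Function.support (x : Γ × ℕ → 𝕜)).Finite := hx
  set F := hfin.toFinset with hF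
  have hnorm : ∀ n, ‖(T 𝕜 ^ n) x‖ = ∑ i ∈ F, (W i.1.1 (i.2 + n) / W i.1.1 i.2) * ‖x i‖ := by
    intro n
    rw [norm_T_pow]
    apply tsum_eq_sum
    intro i hi
    rw [hF, Set.Finite.mem_toFinset, Function.mem_support, not_not] at hi
    rw [hi, norm_zero, mul_zero]
  -- a bound for the positions
  obtain ⟨M, hM⟩ : ∃ M : ℕ, ∀ i ∈ F, i.2 ≤ M := ⟨F.sup Prod.snd, fun i hi => Finset.le_sup hi⟩
  constructor
  · intro ε hε
    rw [frequently_atTop]
    intro N
    -- the total size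
    set C : ℝ := ∑ i ∈ F, (2 ^ i.2 / W i.1.1 i.2) * ‖x i‖ with hC
    have hC0 : 0 ≤ C := Finset.sum_nonneg fun i _ =>
      mul_nonneg (div_nonneg (by positivity) (W_pos _ _).le) (norm_nonneg _)
    obtain ⟨J, hJ⟩ := exists_pow_lt_of_lt_one (show (0 : ℝ) < ε / (C + 1) by positivity)
      (show (1 / 2 : ℝ) < 1 by norm_num)
    -- a common block
    have hU : (⋂ i ∈ F, i.1.1) ∈ (Filter.hyperfilter ℕ : Ultrafilter ℕ) := by
      rw [← Ultrafilter.mem_coe, Filter.biInter_finset_mem]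
      intro i _
      exact i.1.2
    have hinf : (⋂ i ∈ F, i.1.1).Infinite := by
      intro hf
      have h1 := Filter.compl_mem_hyperfilter_of_finite hf
      have h2 : ((⋂ i ∈ F, i.1.1) ∩ (⋂ i ∈ F, i.1.1)ᶜ) ∈
          (Filter.hyperfilter ℕ : Ultrafilter ℕ) := by
        rw [← Ultrafilter.mem_coe] at hU ⊢
        exact Filter.inter_mem hU h1
      rw [Set.inter_compl_self] at h2
      exact Ultrafilter.empty_notMem h2
    obtain ⟨j, hjA, hj⟩ := hinf.exists_gt (N + M + J)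
    refine ⟨3 * 4 ^ j, ?_, ?_⟩
    · have := lt_four_pow j
      omega
    · rw [hnorm]
      have h1 : ∀ i ∈ F, (W i.1.1 (i.2 + 3 * 4 ^ j) / W i.1.1 i.2) * ‖x i‖ =
          (1 / 2) ^ j * ((2 ^ i.2 / W i.1.1 i.2) * ‖x i‖) := by
        intro i hi
        have hiM := hM i hi
        have hji : j ∈ i.1.1 := by
          have := Set.mem_iInter₂.1 hjA i hi
          exact this
        rw [W_dip hji (by omega)]
        have h2 : (2 : ℝ) ^ j = 2 ^ (j - i.2) * 2 ^ i.2 := by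
          rw [← pow_add]
          congr 1
          omega
        have h3 : (1 / 2 : ℝ) ^ j = 1 / 2 ^ j := by rw [div_pow, one_pow]
        rw [h3, h2]
        have h4 := (W_pos i.1.1 i.2).ne'
        field_simp
      rw [Finset.sum_congr rfl h1, ← Finset.mul_sum, ← hC]
      have h5 : (1 / 2 : ℝ) ^ j ≤ (1 / 2) ^ J :=
        pow_le_pow_of_le_one (by norm_num) (by norm_num) (by omega)
      calc (1 / 2 : ℝ) ^ j * C ≤ (1 / 2) ^ J * C := mul_le_mul_of_nonneg_right h5 hC0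
        _ ≤ ε / (C + 1) * C := mul_le_mul_of_nonneg_right hJ.le hC0
        _ < ε := by
          rw [div_mul_eq_mul_div, div_lt_iff₀ (by positivity)]
          nlinarith
  · intro K
    rw [frequently_atTop]
    intro N
    obtain ⟨i, hi⟩ : ∃ i, x i ≠ 0 := by
      by_contra hcon
      push Not at hcon
      apply h0
      ext i
      rw [hcon i]
      rfl
    have hxi : 0 < ‖x i‖ := norm_pos_iff.2 hi
    have hWi := W_pos i.1.1 i.2
    obtain ⟨J, hJ⟩ := pow_unbounded_of_one_lt (K * W i.1.1 i.2 / ‖x i‖)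
      (show (1 : ℝ) < 2 by norm_num)
    set j := J + i.2 + N with hj
    refine ⟨2 * 4 ^ j, ?_, ?_⟩
    · have := lt_four_pow j
      omega
    · rw [hnorm]
      have hiF : i ∈ F := by
        rw [hF, Set.Finite.mem_toFinset, Function.mem_support]
        exact hi
      have h1 : (W i.1.1 (i.2 + 2 * 4 ^ j) / W i.1.1 i.2) * ‖x i‖ ≤
          ∑ i ∈ F, (W i.1.1 (i.2 + 2 * 4 ^ j) / W i.1.1 i.2) * ‖x i‖ :=
        Finset.single_le_sum (f := fun i => (W i.1.1 (i.2 + 2 * 4 ^ j) / W i.1.1 i.2) * ‖x i‖)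
          (fun i _ => mul_nonneg (div_nonneg (W_pos _ _).le (W_pos _ _).le) (norm_nonneg _)) hiF
      refine lt_of_lt_of_le ?_ h1
      rw [W_peak _ (by omega)]
      have h2 : (2 : ℝ) ^ J ≤ 2 ^ (j - i.2) := pow_le_pow_right₀ (by norm_num) (by omega)
      rw [div_lt_iff₀ hxi] at hJ
      rw [div_mul_eq_mul_div, lt_div_iff₀ hWi]
      calc K * W i.1.1 i.2 < 2 ^ J * ‖x i‖ := hJ
        _ ≤ 2 ^ (j - i.2) * ‖x i‖ := mul_le_mul_of_nonneg_right h2 hxi.le

/-! ### No dense uniform chaos -/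

/-- Every sequence of times misses the dips of some fibre. -/
theorem exists_fibre (p : ℕ → ℕ) : ∃ A : Γ, ∃ c : ℝ, 0 < c ∧ ∃ᶠ n in atTop, c ≤ W A.1 (p n) := by
  classical
  by_cases hb : ∃ J, ∃ᶠ n in atTop, Nat.log 4 (p n) ≤ J
  · obtain ⟨J, hJ⟩ := hb
    refine ⟨⟨Set.univ, Filter.univ_mem⟩, 1 / 2 ^ J, by positivity, ?_⟩
    refine hJ.mono fun n hn => ?_
    refine le_trans ?_ (W_ge _ _)
    apply one_div_le_one_div_of_le (by positivity)
    exact pow_le_pow_right₀ (by norm_num) hn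
  · push Not at hb
    -- the blocks visited
    set E := Set.range fun n => Nat.log 4 (p n) with hE
    have hEinf : E.Infinite := by
      intro hf
      obtain ⟨J, hJ⟩ := hf.bddAbove
      have h1 := hb J
      obtain ⟨n, hn⟩ := h1.exists
      have h2 : Nat.log 4 (p n) ≤ J := hJ ⟨n, rfl⟩
      omega
    obtain ⟨f, hf⟩ : ∃ f : ℕ ↪ ℕ, ∀ n, f n ∈ E :=
      ⟨(Set.Infinite.natEmbedding E hEinf).trans (Function.Embedding.subtype _),
        fun n => (Set.Infinite.natEmbedding E hEinf n).2⟩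
    obtain ⟨Q, hQE, hQinf, hQ⟩ : ∃ Q : Set ℕ, Q ⊆ E ∧ Q.Infinite ∧
        Qᶜ ∈ (Filter.hyperfilter ℕ : Ultrafilter ℕ) := by
      by_cases h : (f '' {n | Even n})ᶜ ∈ (Filter.hyperfilter ℕ : Ultrafilter ℕ)
      · refine ⟨f '' {n | Even n}, ?_, ?_, h⟩
        · rintro _ ⟨n, _, rfl⟩
          exact hf n
        · exact Nat.frequently_atTop_iff_infinite.1 Nat.frequently_even |>.image f.injective.injOn
      · refine ⟨f '' {n | Odd n}, ?_, ?_, ?_⟩
        · rintro _ ⟨n, _, rfl⟩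
          exact hf n
        · exact Nat.frequently_atTop_iff_infinite.1 Nat.frequently_odd |>.image f.injective.injOn
        · rw [Ultrafilter.compl_mem_iff_notMem, not_not] at h
          rw [← Ultrafilter.mem_coe] at h ⊢
          apply Filter.mem_of_superset h
          rintro _ ⟨n, hn, rfl⟩ ⟨m, hm, hmn⟩
          have := f.injective hmn
          subst this
          exact Nat.not_even_iff_odd.2 hm hn
    refine ⟨⟨Qᶜ, hQ⟩, 1, one_pos, ?_⟩
    rw [frequently_atTop]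
    intro N
    -- an element of `Q` not among the first values
    obtain ⟨q, hq, hqN⟩ := hQinf.exists_notMem_finset
      ((Finset.range N).image fun n => Nat.log 4 (p n))
    obtain ⟨n, hn⟩ := hQE hq
    refine ⟨n, ?_, ?_⟩
    · by_contra h
      apply hqN
      rw [Finset.mem_image]
      exact ⟨n, Finset.mem_range.2 (by omega), hn⟩
    · apply W_ge_one
      intro h
      apply h
      have hn : Nat.log 4 (p n) = q := hn
      rw [hn]
      exact hq

theorem not_chaotic : ¬ DenselyUniformlyChaotic (T 𝕜) := by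
  classical
  rintro ⟨S, hS, _, _, p, q, _, _, hpq⟩
  obtain ⟨A, c, hc, hfreq⟩ := exists_fibre p
  -- two points of `S` with different coordinates at `(A, 0)`
  have hev : Continuous fun x : X 𝕜 => x (A, 0) := by
    have h1 : ∀ x y : X 𝕜, ‖x (A, 0) - y (A, 0)‖ ≤ ‖x - y‖ := by
      intro x y
      have := lp.norm_apply_le_norm (p := 1) (by simp) (x - y) (A, 0)
      simpa using this
    apply LipschitzWith.continuous (K := 1)
    apply LipschitzWith.of_dist_le_mul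
    intro x y
    rw [dist_eq_norm, dist_eq_norm, NNReal.coe_one, one_mul]
    exact h1 x y
  have hsurj : ∀ r : 𝕜, ∃ x : X 𝕜, x (A, 0) = r := by
    intro r
    exact ⟨lp.single 1 (A, 0) r, by rw [lp.single_apply_self]⟩
  obtain ⟨x, hxS, hx⟩ : ∃ x ∈ S, ‖x (A, 0)‖ < 1 / 2 := by
    obtain ⟨x₀, hx₀⟩ := hsurj 0
    have hopen : IsOpen {x : X 𝕜 | ‖x (A, 0)‖ < 1 / 2} := isOpen_lt hev.norm continuous_const
    obtain ⟨x, h1, h2⟩ := hS.exists_mem_open hopen ⟨x₀, by
      show ‖x₀ (A, 0)‖ < 1 / 2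
      rw [hx₀, norm_zero]; norm_num⟩
    exact ⟨x, h1, h2⟩
  obtain ⟨y, hyS, hy⟩ : ∃ y ∈ S, 1 / 2 < ‖y (A, 0)‖ := by
    obtain ⟨x₀, hx₀⟩ := hsurj 1
    have hopen : IsOpen {x : X 𝕜 | 1 / 2 < ‖x (A, 0)‖} := isOpen_lt continuous_const hev.norm
    obtain ⟨x, h1, h2⟩ := hS.exists_mem_open hopen ⟨x₀, by
      show 1 / 2 < ‖x₀ (A, 0)‖
      rw [hx₀, norm_one]; norm_num⟩
    exact ⟨x, h1, h2⟩
  have hxy : x ≠ y := by
    rintro rfl
    linarith
  set z := x - y with hz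
  have hz0 : 0 < ‖z (A, 0)‖ := by
    rw [norm_pos_iff]
    intro h
    have : x (A, 0) - y (A, 0) = 0 := by simpa [hz] using h
    rw [sub_eq_zero] at this
    rw [this] at hx
    linarith
  have hlim := (hpq x hxS y hyS hxy).1
  have hbig : ∃ᶠ n in atTop, c / W A.1 0 * ‖z (A, 0)‖ ≤ ‖(T 𝕜 ^ p n) x - (T 𝕜 ^ p n) y‖ := by
    refine hfreq.mono fun n hn => ?_
    rw [← map_sub, ← hz]
    have h1 := lp.norm_apply_le_norm (p := 1) (by simp) ((T 𝕜 ^ p n) z) (A, 0 + p n)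
    refine le_trans ?_ h1
    rw [T_pow_apply, norm_mul, RCLike.norm_ofReal, abs_of_pos (div_pos (W_pos _ _) (W_pos _ _)),
      zero_add]
    apply mul_le_mul_of_nonneg_right _ hz0.le
    exact div_le_div_of_nonneg_right hn (W_pos _ _).le
  have hpos : 0 < c / W A.1 0 * ‖z (A, 0)‖ := mul_pos (div_pos hc (W_pos _ _)) hz0
  have hsmall : ∀ᶠ n in atTop, ‖(T 𝕜 ^ p n) x - (T 𝕜 ^ p n) y‖ < c / W A.1 0 * ‖z (A, 0)‖ :=
    hlim.eventually (gt_mem_nhds hpos)
  obtain ⟨n, h1, h2⟩ := (hbig.and_eventually hsmall).exists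
  linarith

/-- **Main theorem.** Over `ℝ` and over `ℂ` there are a Banach space `X ≠ 0` and a bounded operator on
it which admits a dense irregular manifold but is not densely uniformly Li-Yorke chaotic. -/
theorem result (𝕜 : Type) [RCLike 𝕜] : ∃ (X : Type) (_ : NormedAddCommGroup X)
    (_ : NormedSpace 𝕜 X) (_ : CompleteSpace X) (_ : Nontrivial X) (T : X →L[𝕜] X),
    DenseIrregularManifold T ∧ ¬ DenselyUniformlyChaotic T :=
  ⟨X 𝕜, inferInstance, inferInstance, inferInstance,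
    ⟨lp.single 1 ((⟨Set.univ, Filter.univ_mem⟩ : Γ), 0) (1 : 𝕜), 0, fun h => by
      have h1 := congrArg (fun x : X 𝕜 => (x : Γ × ℕ → 𝕜) ((⟨Set.univ, Filter.univ_mem⟩ : Γ), 0)) h
      simp only [lp.single_apply_self, lp.coeFn_zero, Pi.zero_apply] at h1
      exact one_ne_zero h1⟩, T 𝕜, ⟨Y, Y_dense, Y_irregular⟩, not_chaotic⟩

end Pool.Agent.Results.MP_515085_an.UltrafilterShift
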